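import Mathlib

/-!
# Sum of element orders versus order sequence for groups of odd order

We construct two groups `G`, `H` of order `3 ^ 17`, with `G` abelian (in particular an LCM-group),
with `exp H = exp G = 27` and `psi G = psi H`, but with different order sequences.
-/

set_option autoImplicit false

namespace Pool.Agent.Results.MP_c3eb23_al.OddCounterexample

/-- `G` is an LCM-group: `o(x^n y)` divides `lcm(o(x^n), o(y))` for all `x, y` and all `n`. -/
def IsLCMGroup (G : Type) [Group G] : Prop :=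
  ∀ (x y : G) (n : ℕ), orderOf (x ^ n * y) ∣ Nat.lcm (orderOf (x ^ n)) (orderOf y)

/-- The sum of the element orders of a finite group. -/
noncomputable def psi (G : Type) [Group G] [Fintype G] : ℕ := ∑ x : G, orderOf x

/-- The order sequence: the list of the orders of all elements, with multiplicity, in
non-decreasing order. -/
noncomputable def os (G : Type) [Group G] [Fintype G] : List ℕ :=
  ((Finset.univ : Finset G).val.map (fun x => orderOf x)).sort (· ≤ ·)

/-! ### The building block `E`: `(Z[w]/27) ⋊ C_3`, in coordinates `(p, q, s)` -/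

/-- Underlying set of the building block. -/
@[ext] structure E where
  p : ZMod 27
  q : ZMod 27
  s : ZMod 3

/-- matrix entries of the powers of the automorphism -/
def ca (s : ZMod 3) : ZMod 27 := if s = 0 then 1 else if s = 1 then 1 else -2
def cb (s : ZMod 3) : ZMod 27 := if s = 0 then 0 else if s = 1 then -3 else 3
def cc (s : ZMod 3) : ZMod 27 := if s = 0 then 0 else if s = 1 then 1 else -1
def cd (s : ZMod 3) : ZMod 27 := if s = 0 then 1 else if s = 1 then -2 else 1

lemma ca_add : ∀ s t : ZMod 3, ca (s + t) = ca s * ca t + cb s * cc t := by decide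
lemma cb_add : ∀ s t : ZMod 3, cb (s + t) = ca s * cb t + cb s * cd t := by decide
lemma cc_add : ∀ s t : ZMod 3, cc (s + t) = cc s * ca t + cd s * cc t := by decide
lemma cd_add : ∀ s t : ZMod 3, cd (s + t) = cc s * cb t + cd s * cd t := by decide

instance : Mul E := ⟨fun x y =>
  ⟨x.p + (ca x.s * y.p + cb x.s * y.q), x.q + (cc x.s * y.p + cd x.s * y.q), x.s + y.s⟩⟩
instance : One E := ⟨⟨0, 0, 0⟩⟩
instance : Inv E := ⟨fun x =>
  ⟨-(ca (-x.s) * x.p + cb (-x.s) * x.q), -(cc (-x.s) * x.p + cd (-x.s) * x.q), -x.s⟩⟩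

lemma mul_p (x y : E) : (x * y).p = x.p + (ca x.s * y.p + cb x.s * y.q) := rfl
lemma mul_q (x y : E) : (x * y).q = x.q + (cc x.s * y.p + cd x.s * y.q) := rfl
lemma mul_s (x y : E) : (x * y).s = x.s + y.s := rfl
@[simp] lemma one_p : (1 : E).p = 0 := rfl
@[simp] lemma one_q : (1 : E).q = 0 := rfl
@[simp] lemma one_s : (1 : E).s = 0 := rfl
lemma inv_p (x : E) : (x⁻¹).p = -(ca (-x.s) * x.p + cb (-x.s) * x.q) := rfl
lemma inv_q (x : E) : (x⁻¹).q = -(cc (-x.s) * x.p + cd (-x.s) * x.q) := rfl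
lemma inv_s (x : E) : (x⁻¹).s = -x.s := rfl

lemma ca_zero : ca 0 = 1 := by decide
lemma cb_zero : cb 0 = 0 := by decide
lemma cc_zero : cc 0 = 0 := by decide
lemma cd_zero : cd 0 = 1 := by decide

instance : Group E := Group.ofLeftAxioms
  (by
    intro x y z
    ext
    · simp only [mul_p, mul_q, mul_s, ca_add, cb_add]; ring
    · simp only [mul_p, mul_q, mul_s, cc_add, cd_add]; ring
    · simp only [mul_s]; ring)
  (by
    intro x
    ext
    · simp [mul_p, ca_zero, cb_zero]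
    · simp [mul_q, cc_zero, cd_zero]
    · simp [mul_s])
  (by
    intro x
    ext
    · simp only [mul_p, inv_p, inv_s, one_p]; ring
    · simp only [mul_q, inv_q, inv_s, one_q]; ring
    · simp only [mul_s, inv_s, one_s]; ring)

/-- `E` as a product type. -/
def eqE : E ≃ ZMod 27 × ZMod 27 × ZMod 3 where
  toFun x := (x.p, x.q, x.s)
  invFun y := ⟨y.1, y.2.1, y.2.2⟩
  left_inv _ := rfl
  right_inv _ := rfl

instance : Fintype E := Fintype.ofEquiv _ eqE.symm
instance : DecidableEq E := fun x y =>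
  decidable_of_iff (x.p = y.p ∧ x.q = y.q ∧ x.s = y.s) (by
    constructor
    · rintro ⟨h1, h2, h3⟩; ext <;> assumption
    · rintro rfl; exact ⟨rfl, rfl, rfl⟩)

lemma pow3_of_ne (x : E) (h : x.s ≠ 0) : x ^ 3 = 1 := by
  have key : ∀ s : ZMod 3, s ≠ 0 → 1 + ca s + ca (s + s) = 0 ∧ cb s + cb (s + s) = 0 ∧
      cc s + cc (s + s) = 0 ∧ 1 + cd s + cd (s + s) = 0 ∧ s + (s + s) = 0 := by decide
  obtain ⟨h1, h2, h3, h4, h5⟩ := key x.s h
  have e : x ^ 3 = x * (x * x) := by rw [pow_succ, pow_two, mul_assoc]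
  rw [e]
  ext
  · simp only [mul_p, mul_q, one_p]
    have : x.p + (ca x.s * (x.p + (ca x.s * x.p + cb x.s * x.q)) +
        cb x.s * (x.q + (cc x.s * x.p + cd x.s * x.q))) =
        (1 + ca x.s + ca (x.s + x.s)) * x.p + (cb x.s + cb (x.s + x.s)) * x.q := by
      rw [ca_add, cb_add]; ring
    rw [this, h1, h2]; ring
  · simp only [mul_p, mul_q, one_q]
    have : x.q + (cc x.s * (x.p + (ca x.s * x.p + cb x.s * x.q)) +
        cd x.s * (x.q + (cc x.s * x.p + cd x.s * x.q))) =
        (cc x.s + cc (x.s + x.s)) * x.p + (1 + cd x.s + cd (x.s + x.s)) * x.q := by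
      rw [cc_add, cd_add]; ring
    rw [this, h3, h4]; ring
  · simp only [mul_s, one_s]; exact h5

lemma pow_of_zero (x : E) (h : x.s = 0) (n : ℕ) :
    (x ^ n).p = n * x.p ∧ (x ^ n).q = n * x.q ∧ (x ^ n).s = 0 := by
  induction n with
  | zero => simp
  | succ n ih =>
    obtain ⟨h1, h2, h3⟩ := ih
    rw [pow_succ]
    refine ⟨?_, ?_, ?_⟩
    · rw [mul_p, h1, h3, ca_zero, cb_zero]; push_cast; ring
    · rw [mul_q, h2, h3, cc_zero, cd_zero]; push_cast; ring
    · rw [mul_s, h3, h]; rfl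

/-- For `n = 3, 9, 27`: when is `x ^ n = 1`? -/
lemma pow_eq_one_iff (x : E) (n : ℕ) (hn : 3 ∣ n) :
    x ^ n = 1 ↔ (x.s ≠ 0 ∨ ((n : ZMod 27) * x.p = 0 ∧ (n : ZMod 27) * x.q = 0)) := by
  by_cases h : x.s = 0
  · obtain ⟨h1, h2, h3⟩ := pow_of_zero x h n
    constructor
    · intro e
      right
      rw [← h1, ← h2, e]; exact ⟨rfl, rfl⟩
    · rintro (h' | ⟨e1, e2⟩)
      · exact absurd h h'
      · ext
        · rw [h1, e1]; rfl
        · rw [h2, e2]; rfl
        · rw [h3]; rfl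
  · obtain ⟨k, rfl⟩ := hn
    constructor
    · intro _; left; exact h
    · intro _; rw [pow_mul, pow3_of_ne x h, one_pow]

/-! ### The group `H0 ≤ E × E × E` -/

/-- reduction modulo 3 -/
def red : ZMod 27 →+* ZMod 3 := ZMod.castHom (by norm_num) (ZMod 3)

lemma red_ca : ∀ s : ZMod 3, red (ca s) = 1 := by decide
lemma red_cb : ∀ s : ZMod 3, red (cb s) = 0 := by decide
lemma red_cc : ∀ s : ZMod 3, red (cc s) = s := by decide
lemma red_cd : ∀ s : ZMod 3, red (cd s) = 1 := by decide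

lemma red_mul_p (x y : E) : red (x * y).p = red x.p + red y.p := by
  rw [mul_p]; simp only [map_add, map_mul, red_ca, red_cb]; ring
lemma red_mul_q (x y : E) : red (x * y).q = red x.q + x.s * red y.p + red y.q := by
  rw [mul_q]; simp only [map_add, map_mul, red_cc, red_cd]; ring
lemma red_inv_p (x : E) : red (x⁻¹).p = - red x.p := by
  rw [inv_p]; simp only [map_neg, map_add, map_mul, red_ca, red_cb]; ring
lemma red_inv_q (x : E) : red (x⁻¹).q = x.s * red x.p - red x.q := by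
  rw [inv_q]; simp only [map_neg, map_add, map_mul, red_cc, red_cd]; ring

/-- The fibre product. -/
def H0 : Subgroup (E × E × E) where
  carrier := {x | red x.2.1.p = 0 ∧ red x.2.2.p = 0 ∧ red x.2.1.q = red x.1.p ∧
    red x.2.2.q = red x.1.p ∧ x.2.1.s = x.1.s - red x.1.p ∧ x.2.2.s = x.1.s + red x.1.p}
  mul_mem' := by
    rintro ⟨a, b, c⟩ ⟨a', b', c'⟩ ⟨h1, h2, h3, h4, h5, h6⟩ ⟨g1, g2, g3, g4, g5, g6⟩
    simp only [Set.mem_ofPred_eq, Prod.mk_mul_mk, red_mul_p, red_mul_q, mul_s] at *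
    refine ⟨?_, ?_, ?_, ?_, ?_, ?_⟩
    · rw [h1, g1]; ring
    · rw [h2, g2]; ring
    · rw [h3, g1, g3]; ring
    · rw [h4, g2, g4]; ring
    · rw [h5, g5]; ring
    · rw [h6, g6]; ring
  one_mem' := by
    simp only [Set.mem_ofPred_eq, Prod.fst_one, Prod.snd_one, one_p, one_q, one_s, map_zero]
    decide
  inv_mem' := by
    rintro ⟨a, b, c⟩ ⟨h1, h2, h3, h4, h5, h6⟩
    simp only [Set.mem_ofPred_eq, Prod.inv_mk, red_inv_p, red_inv_q, inv_s] at *
    refine ⟨?_, ?_, ?_, ?_, ?_, ?_⟩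
    · rw [h1]; ring
    · rw [h2]; ring
    · rw [h3, h1]; ring
    · rw [h4, h2]; ring
    · rw [h5]; ring
    · rw [h6]; ring


/-! ### Parametrisation of `H0` -/

/-- multiplication by 3 as a map `ZMod 9 → ZMod 27` -/
def three (a : ZMod 9) : ZMod 27 := 3 * (a.val : ZMod 27)
/-- division by 3 -/
def third (y : ZMod 27) : ZMod 9 := ((y.val / 3 : ℕ) : ZMod 9)

lemma third_three : ∀ a : ZMod 9, third (three a) = a := by decide
lemma three_third : ∀ y : ZMod 27, red y = 0 → three (third y) = y := by decide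
lemma red_three : ∀ a : ZMod 9, red (three a) = 0 := by decide
lemma nine_mul : ∀ y : ZMod 27, (9 : ZMod 27) * y = 0 ↔ red y = 0 := by decide
lemma nine_mul_three : ∀ c : ZMod 9, (9 : ZMod 27) * three c = 0 := by decide
lemma three_mul_three : ∀ c : ZMod 9, (3 : ZMod 27) * three c = 0 ↔ (3 : ZMod 9) * c = 0 := by
  decide
lemma red_of_three : ∀ y : ZMod 27, (3 : ZMod 27) * y = 0 → red y = 0 := by decide

/-- parameter type -/
abbrev P := E × ((ZMod 9 × ZMod 9) × (ZMod 9 × ZMod 9))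

/-- the parametrisation -/
def toT (t : P) : E × E × E :=
  (t.1, ⟨three t.2.1.1, t.1.p + three t.2.1.2, t.1.s - red t.1.p⟩,
    ⟨three t.2.2.1, t.1.p + three t.2.2.2, t.1.s + red t.1.p⟩)

lemma toT_mem (t : P) : toT t ∈ H0 := by
  refine ⟨?_, ?_, ?_, ?_, rfl, rfl⟩
  · exact red_three _
  · exact red_three _
  · change red (t.1.p + three t.2.1.2) = red t.1.p
    rw [map_add, red_three, add_zero]
  · change red (t.1.p + three t.2.2.2) = red t.1.p
    rw [map_add, red_three, add_zero]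

/-- the equivalence -/
def eqH : H0 ≃ P where
  toFun x := (x.1.1, ((third x.1.2.1.p, third (x.1.2.1.q - x.1.1.p)),
    (third x.1.2.2.p, third (x.1.2.2.q - x.1.1.p))))
  invFun t := ⟨toT t, toT_mem t⟩
  left_inv := by
    rintro ⟨⟨a, b, c⟩, ⟨h1, h2, h3, h4, h5, h6⟩⟩
    simp only at h1 h2 h3 h4 h5 h6
    apply Subtype.ext
    change ((a, ⟨three (third b.p), a.p + three (third (b.q - a.p)), a.s - red a.p⟩,
      ⟨three (third c.p), a.p + three (third (c.q - a.p)), a.s + red a.p⟩) : E × E × E) = (a, b, c)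
    rw [three_third _ h1, three_third _ h2, three_third (b.q - a.p) (by rw [map_sub, h3, sub_self]),
      three_third (c.q - a.p) (by rw [map_sub, h4, sub_self]), ← h5, ← h6]
    rw [add_sub_cancel, add_sub_cancel]
  right_inv := by
    rintro ⟨a, ⟨a1, c1⟩, ⟨a2, c2⟩⟩
    change ((a, ((third (three a1), third (a.p + three c1 - a.p)),
      (third (three a2), third (a.p + three c2 - a.p)))) : P) = _
    rw [add_sub_cancel_left, add_sub_cancel_left, third_three, third_three, third_three,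
      third_three]

lemma cond9 (t : P) : (toT t) ^ 9 = 1 ↔ (red t.1.p = 0 ∧ (t.1.s ≠ 0 ∨ red t.1.q = 0)) := by
  obtain ⟨a, ⟨a1, c1⟩, ⟨a2, c2⟩⟩ := t
  have h0 : (toT (a, ⟨a1, c1⟩, ⟨a2, c2⟩)) ^ 9 = 1 ↔ a ^ 9 = 1 ∧
      (⟨three a1, a.p + three c1, a.s - red a.p⟩ : E) ^ 9 = 1 ∧
      (⟨three a2, a.p + three c2, a.s + red a.p⟩ : E) ^ 9 = 1 := by
    rw [Prod.ext_iff, Prod.ext_iff]; rfl
  rw [h0, pow_eq_one_iff _ 9 (by norm_num), pow_eq_one_iff _ 9 (by norm_num),
    pow_eq_one_iff _ 9 (by norm_num)]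
  simp only [Nat.cast_ofNat, nine_mul, map_add, red_three, add_zero, true_and]
  generalize red a.p = u
  generalize red a.q = v
  generalize a.s = s
  revert u v s
  decide

lemma cond3 (t : P) : (toT t) ^ 3 = 1 ↔ ((red t.1.p = 0 ∧ t.1.s ≠ 0) ∨
    ((t.1.s = 0 ∧ 3 * t.1.p = 0 ∧ 3 * t.1.q = 0) ∧
      ((3 * t.2.1.1 = 0 ∧ 3 * t.2.1.2 = 0) ∧ (3 * t.2.2.1 = 0 ∧ 3 * t.2.2.2 = 0)))) := by
  obtain ⟨a, ⟨a1, c1⟩, ⟨a2, c2⟩⟩ := t
  have h0 : (toT (a, ⟨a1, c1⟩, ⟨a2, c2⟩)) ^ 3 = 1 ↔ a ^ 3 = 1 ∧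
      (⟨three a1, a.p + three c1, a.s - red a.p⟩ : E) ^ 3 = 1 ∧
      (⟨three a2, a.p + three c2, a.s + red a.p⟩ : E) ^ 3 = 1 := by
    rw [Prod.ext_iff, Prod.ext_iff]; rfl
  rw [h0, pow_eq_one_iff _ 3 (by norm_num), pow_eq_one_iff _ 3 (by norm_num),
    pow_eq_one_iff _ 3 (by norm_num)]
  simp only [Nat.cast_ofNat, three_mul_three]
  constructor
  · rintro ⟨h1, h2, h3⟩
    have hu : red a.p = 0 := by
      by_contra hu
      have key : ∀ u s : ZMod 3, u ≠ 0 → s = 0 ∨ s - u = 0 ∨ s + u = 0 := by decide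
      rcases key (red a.p) a.s hu with h | h | h
      · rcases h1 with h1 | h1
        · exact h1 h
        · exact hu (red_of_three _ h1.1)
      · rcases h2 with h2 | h2
        · exact h2 h
        · have := red_of_three _ h2.2
          rw [map_add, red_three, add_zero] at this
          exact hu this
      · rcases h3 with h3 | h3
        · exact h3 h
        · have := red_of_three _ h3.2
          rw [map_add, red_three, add_zero] at this
          exact hu this
    rw [hu, sub_zero] at h2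
    rw [hu, add_zero] at h3
    by_cases hs : a.s = 0
    · right
      have h1' := h1.resolve_left (fun h => h hs)
      have h2' := h2.resolve_left (fun h => h hs)
      have h3' := h3.resolve_left (fun h => h hs)
      rw [mul_add, h1'.1, zero_add, three_mul_three] at h2' h3'
      exact ⟨⟨hs, h1'.1, h1'.2⟩, h2', h3'⟩
    · left; exact ⟨hu, hs⟩
  · rintro (⟨hu, hs⟩ | ⟨⟨hs, h1, h2⟩, ⟨h3, h4⟩, ⟨h5, h6⟩⟩)
    · rw [hu, sub_zero, add_zero]
      exact ⟨Or.inl hs, Or.inl hs, Or.inl hs⟩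
    · refine ⟨Or.inr ⟨h1, h2⟩, Or.inr ⟨h3, ?_⟩, Or.inr ⟨h5, ?_⟩⟩
      · rw [mul_add, h1, zero_add, three_mul_three]; exact h4
      · rw [mul_add, h1, zero_add, three_mul_three]; exact h6

/-! ### Counting in `H0` -/

lemma cardA : (Finset.univ.filter (fun a : E => red a.p = 0 ∧ a.s ≠ 0)).card = 486 := by
  have h : (Finset.univ.filter (fun a : E => red a.p = 0 ∧ a.s ≠ 0)).card =
      (Finset.univ.filter (fun b : ZMod 27 × ZMod 27 × ZMod 3 => red b.1 = 0 ∧
        (True ∧ b.2.2 ≠ 0))).card := by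
    refine Finset.card_equiv eqE ?_
    intro a
    simp [eqE]
  rw [h, ← Finset.univ_product_univ, Finset.filter_product (fun x => red x = 0)
    (fun y : ZMod 27 × ZMod 3 => True ∧ y.2 ≠ 0), ← Finset.univ_product_univ,
    Finset.filter_product (fun _ => True) (fun z : ZMod 3 => z ≠ 0), Finset.card_product,
    Finset.card_product]
  have h1 : (Finset.univ.filter (fun x : ZMod 27 => red x = 0)).card = 9 := by decide
  have h2 : (Finset.univ.filter (fun x : ZMod 27 => True)).card = 27 := by decide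
  have h3 : (Finset.univ.filter (fun x : ZMod 3 => x ≠ 0)).card = 2 := by decide
  rw [h1, h2, h3]

lemma cardB : (Finset.univ.filter (fun a : E => a.s = 0 ∧ 3 * a.p = 0 ∧ 3 * a.q = 0)).card = 9 := by
  have h : (Finset.univ.filter (fun a : E => a.s = 0 ∧ 3 * a.p = 0 ∧ 3 * a.q = 0)).card =
      (Finset.univ.filter (fun b : ZMod 27 × ZMod 27 × ZMod 3 => 3 * b.1 = 0 ∧
        (3 * b.2.1 = 0 ∧ b.2.2 = 0))).card := by
    refine Finset.card_equiv eqE ?_
    intro a
    simp [eqE]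
    tauto
  rw [h, ← Finset.univ_product_univ, Finset.filter_product (fun x => 3 * x = 0)
    (fun y : ZMod 27 × ZMod 3 => 3 * y.1 = 0 ∧ y.2 = 0), ← Finset.univ_product_univ,
    Finset.filter_product (fun y => 3 * y = 0) (fun z : ZMod 3 => z = 0), Finset.card_product,
    Finset.card_product]
  have h1 : (Finset.univ.filter (fun x : ZMod 27 => 3 * x = 0)).card = 3 := by decide
  have h3 : (Finset.univ.filter (fun x : ZMod 3 => x = 0)).card = 1 := by decide
  rw [h1, h3]

lemma cardC : (Finset.univ.filter (fun a : E => red a.p = 0 ∧ a.s = 0 ∧ red a.q = 0)).card = 81 := by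
  have h : (Finset.univ.filter (fun a : E => red a.p = 0 ∧ a.s = 0 ∧ red a.q = 0)).card =
      (Finset.univ.filter (fun b : ZMod 27 × ZMod 27 × ZMod 3 => red b.1 = 0 ∧
        (red b.2.1 = 0 ∧ b.2.2 = 0))).card := by
    refine Finset.card_equiv eqE ?_
    intro a
    simp [eqE]
    tauto
  rw [h, ← Finset.univ_product_univ, Finset.filter_product (fun x => red x = 0)
    (fun y : ZMod 27 × ZMod 3 => red y.1 = 0 ∧ y.2 = 0), ← Finset.univ_product_univ,
    Finset.filter_product (fun y => red y = 0) (fun z : ZMod 3 => z = 0), Finset.card_product,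
    Finset.card_product]
  have h1 : (Finset.univ.filter (fun x : ZMod 27 => red x = 0)).card = 9 := by decide
  have h3 : (Finset.univ.filter (fun x : ZMod 3 => x = 0)).card = 1 := by decide
  rw [h1, h3]

lemma card_ZZ : Fintype.card ((ZMod 9 × ZMod 9) × (ZMod 9 × ZMod 9)) = 6561 := by
  simp [ZMod.card]

lemma cardD : (Finset.univ.filter (fun t : (ZMod 9 × ZMod 9) × (ZMod 9 × ZMod 9) =>
    (3 * t.1.1 = 0 ∧ 3 * t.1.2 = 0) ∧ (3 * t.2.1 = 0 ∧ 3 * t.2.2 = 0))).card = 81 := by
  have h1 : (Finset.univ.filter (fun x : ZMod 9 => 3 * x = 0)).card = 3 := by decide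
  have h2 : (Finset.univ.filter (fun x : ZMod 9 × ZMod 9 => 3 * x.1 = 0 ∧ 3 * x.2 = 0)).card = 9 := by
    rw [← Finset.univ_product_univ, Finset.filter_product (fun x : ZMod 9 => 3 * x = 0)
      (fun x : ZMod 9 => 3 * x = 0), Finset.card_product, h1]
  rw [← Finset.univ_product_univ, Finset.filter_product
    (fun x : ZMod 9 × ZMod 9 => 3 * x.1 = 0 ∧ 3 * x.2 = 0)
    (fun x : ZMod 9 × ZMod 9 => 3 * x.1 = 0 ∧ 3 * x.2 = 0), Finset.card_product, h2]

lemma cardE : Fintype.card E = 2187 := by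
  rw [Fintype.card_congr eqE]; simp [ZMod.card]

lemma card_H0 : Nat.card H0 = 3 ^ 15 := by
  rw [Nat.card_congr eqH, Nat.card_eq_fintype_card, Fintype.card_prod, cardE, card_ZZ]
  norm_num

lemma pow_iff (x : H0) (n : ℕ) : x ^ n = 1 ↔ (toT (eqH x)) ^ n = 1 := by
  have h : toT (eqH x) = (x : E × E × E) := congrArg Subtype.val (eqH.symm_apply_apply x)
  rw [h, ← Subgroup.coe_pow, ← Subgroup.coe_one H0, Subtype.coe_inj]

lemma N9_H0 : Nat.card {x : H0 // x ^ 9 = 1} = 3720087 := by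
  have e : {x : H0 // x ^ 9 = 1} ≃
      {t : P // red t.1.p = 0 ∧ (t.1.s ≠ 0 ∨ red t.1.q = 0)} :=
    eqH.subtypeEquiv (fun x => by rw [pow_iff, cond9])
  rw [Nat.card_congr e, Nat.subtype_card
      ((Finset.univ.filter (fun a : E => red a.p = 0 ∧ a.s ≠ 0)) ×ˢ Finset.univ ∪
      (Finset.univ.filter (fun a : E => red a.p = 0 ∧ a.s = 0 ∧ red a.q = 0)) ×ˢ Finset.univ)]
  · rw [Finset.card_union_of_disjoint, Finset.card_product, Finset.card_product, cardA, cardC,
      Finset.card_univ, card_ZZ]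
    rw [Finset.disjoint_left]
    intro t
    simp only [Finset.mem_filter, Finset.mem_product, Finset.mem_univ, true_and, and_true]
    rintro ⟨_, h1⟩ ⟨_, h2, _⟩
    exact h1 h2
  · intro t
    simp only [Finset.mem_filter, Finset.mem_union, Finset.mem_product, Finset.mem_univ, true_and,
      and_true]
    by_cases hs : t.1.s = 0 <;> simp [hs]

lemma N3_H0 : Nat.card {x : H0 // x ^ 3 = 1} = 3189375 := by
  have e : {x : H0 // x ^ 3 = 1} ≃
      {t : P // ((red t.1.p = 0 ∧ t.1.s ≠ 0) ∨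
    ((t.1.s = 0 ∧ 3 * t.1.p = 0 ∧ 3 * t.1.q = 0) ∧
      ((3 * t.2.1.1 = 0 ∧ 3 * t.2.1.2 = 0) ∧ (3 * t.2.2.1 = 0 ∧ 3 * t.2.2.2 = 0))))} :=
    eqH.subtypeEquiv (fun x => by rw [pow_iff, cond3])
  rw [Nat.card_congr e, Nat.subtype_card
      ((Finset.univ.filter (fun a : E => red a.p = 0 ∧ a.s ≠ 0)) ×ˢ Finset.univ ∪
      (Finset.univ.filter (fun a : E => a.s = 0 ∧ 3 * a.p = 0 ∧ 3 * a.q = 0)) ×ˢ
      (Finset.univ.filter (fun t : (ZMod 9 × ZMod 9) × (ZMod 9 × ZMod 9) =>
    (3 * t.1.1 = 0 ∧ 3 * t.1.2 = 0) ∧ (3 * t.2.1 = 0 ∧ 3 * t.2.2 = 0))))]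
  · rw [Finset.card_union_of_disjoint, Finset.card_product, Finset.card_product, cardA, cardB,
      cardD, Finset.card_univ, card_ZZ]
    rw [Finset.disjoint_left]
    intro t
    simp only [Finset.mem_filter, Finset.mem_product, Finset.mem_univ, true_and, and_true]
    rintro ⟨_, h1⟩ ⟨⟨h2, _⟩, _⟩
    exact h1 h2
  · intro t
    simp only [Finset.mem_filter, Finset.mem_union, Finset.mem_product, Finset.mem_univ, true_and,
      and_true]

lemma exp_H0 (x : H0) : x ^ 27 = 1 := by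
  have hE : ∀ y : E, y ^ 27 = 1 := by
    intro y
    rw [pow_eq_one_iff y 27 (by norm_num)]
    right
    have : ((27 : ℕ) : ZMod 27) = 0 := by decide
    rw [this]; simp
  apply Subtype.ext
  rw [Subgroup.coe_pow, Subgroup.coe_one]
  ext1
  · exact hE _
  · ext1
    · exact hE _
    · exact hE _

/-! ### General facts about `psi` and `os` -/

lemma psi_formula (G : Type) [Group G] [Fintype G] (h : ∀ x : G, x ^ 27 = 1) :
    psi G + 2 + 6 * Nat.card {x : G // x ^ 3 = 1} + 18 * Nat.card {x : G // x ^ 9 = 1} =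
      27 * Fintype.card G := by
  classical
  have key : ∀ x : G, orderOf x + 2 * (if x = 1 then 1 else 0) + 6 * (if x ^ 3 = 1 then 1 else 0) +
      18 * (if x ^ 9 = 1 then 1 else 0) = 27 := by
    intro x
    have h1 : orderOf x ∣ 27 := orderOf_dvd_of_pow_eq_one (h x)
    have h2 : orderOf x ∈ Nat.divisors 27 := Nat.mem_divisors.mpr ⟨h1, by norm_num⟩
    have h3 : Nat.divisors 27 = {1, 3, 9, 27} := by decide
    rw [h3] at h2
    have e1 : x = 1 ↔ orderOf x = 1 := orderOf_eq_one_iff.symm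
    have e3 : x ^ 3 = 1 ↔ orderOf x ∣ 3 := orderOf_dvd_iff_pow_eq_one.symm
    have e9 : x ^ 9 = 1 ↔ orderOf x ∣ 9 := orderOf_dvd_iff_pow_eq_one.symm
    simp only [e1, e3, e9]
    simp only [Finset.mem_insert, Finset.mem_singleton] at h2
    rcases h2 with h2 | h2 | h2 | h2 <;> rw [h2] <;> norm_num
  have hsum : ∑ x : G, (orderOf x + 2 * (if x = 1 then 1 else 0) +
      6 * (if x ^ 3 = 1 then 1 else 0) + 18 * (if x ^ 9 = 1 then 1 else 0)) =
      ∑ x : G, 27 := Finset.sum_congr rfl (fun x _ => key x)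
  rw [Finset.sum_add_distrib, Finset.sum_add_distrib, Finset.sum_add_distrib, ← Finset.mul_sum,
    ← Finset.mul_sum, ← Finset.mul_sum, Finset.sum_ite_eq' , ← Finset.card_filter,
    ← Finset.card_filter, Finset.sum_const, Finset.card_univ] at hsum
  rw [Nat.card_eq_fintype_card, Nat.card_eq_fintype_card, Fintype.card_subtype,
    Fintype.card_subtype]
  simp only [Finset.mem_univ, if_true, smul_eq_mul, mul_one] at hsum
  unfold psi
  rw [hsum, mul_comm]

lemma card_val (G : Type) (c : ℕ) (_ : Fintype G) (h : Nat.card G = c) : Fintype.card G = c := by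
  rw [← h, Nat.card_eq_fintype_card]

lemma psi_val (G : Type) [Group G] [Fintype G] (h : ∀ x : G, x ^ 27 = 1) (a b c : ℕ)
    (h3 : Nat.card {x : G // x ^ 3 = 1} = a) (h9 : Nat.card {x : G // x ^ 9 = 1} = b)
    (hc : Nat.card G = c) : psi G + 2 + 6 * a + 18 * b = 27 * c := by
  rw [← h3, ← h9, psi_formula G h, ← Nat.card_eq_fintype_card, hc]

lemma card_of_os (G H : Type) [Group G] [Group H] [Fintype G] [Fintype H] (h : os G = os H) :
    Nat.card {x : G // x ^ 3 = 1} = Nat.card {x : H // x ^ 3 = 1} := by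
  classical
  have key : ∀ (X : Type) [Group X] [Fintype X],
      Nat.card {x : X // x ^ 3 = 1} = ((os X : Multiset ℕ)).countP (· ∣ 3) := by
    intro X _ _
    unfold os
    rw [Multiset.sort_eq, Multiset.countP_map, Nat.card_eq_fintype_card, Fintype.card_subtype]
    simp only [← orderOf_dvd_iff_pow_eq_one]
    rfl
  rw [key G, key H, h]

lemma exponent_eq (G : Type) [Group G] (h : ∀ x : G, x ^ 27 = 1) (x : G) (hx : x ^ 9 ≠ 1) :
    Monoid.exponent G = 27 := by
  have h1 : Monoid.exponent G ∣ 3 ^ 3 := Monoid.exponent_dvd_of_forall_pow_eq_one h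
  obtain ⟨k, hk, e⟩ := (Nat.dvd_prime_pow Nat.prime_three).1 h1
  have hk3 : k = 3 := by
    by_contra hne
    have hk2 : k ≤ 2 := by omega
    have : Monoid.exponent G ∣ 9 := by
      rw [e]; exact pow_dvd_pow 3 hk2
    exact hx (Monoid.exponent_dvd_iff_forall_pow_eq_one.1 this x)
  rw [e, hk3]; norm_num

/-! ### The abelian group `G` -/

/-- `C_27 × C_9^7`, written multiplicatively -/
abbrev GG := Multiplicative (ZMod 27 × (Fin 7 → ZMod 9))

/-- `H0 × C_3 × C_3` -/
abbrev HH := H0 × Multiplicative (ZMod 3 × ZMod 3)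

def eqG (n : ℕ) : {x : GG // x ^ n = 1} ≃
    {a : ZMod 27 // n • a = 0} × (Fin 7 → {b : ZMod 9 // n • b = 0}) where
  toFun x := (⟨x.1.toAdd.1, congrArg (fun z : GG => z.toAdd.1) x.2⟩,
    fun i => ⟨x.1.toAdd.2 i, congrFun (congrArg (fun z : GG => z.toAdd.2) x.2) i⟩)
  invFun y := ⟨Multiplicative.ofAdd (y.1.1, fun i => (y.2 i).1), by
    apply Multiplicative.toAdd.injective
    change n • ((y.1.1, fun i => (y.2 i).1) : ZMod 27 × (Fin 7 → ZMod 9)) = 0
    refine Prod.ext ?_ ?_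
    · exact y.1.2
    · funext i
      exact (y.2 i).2⟩
  left_inv _ := rfl
  right_inv _ := rfl

lemma N3_G : Nat.card {x : GG // x ^ 3 = 1} = 6561 := by
  have h1 : Nat.card {a : ZMod 27 // 3 • a = 0} = 3 := by
    rw [Nat.subtype_card (Finset.univ.filter (fun a : ZMod 27 => 3 • a = 0)) (by simp)]; decide
  have h2 : Nat.card {a : ZMod 9 // 3 • a = 0} = 3 := by
    rw [Nat.subtype_card (Finset.univ.filter (fun a : ZMod 9 => 3 • a = 0)) (by simp)]; decide
  rw [Nat.card_congr (eqG 3), Nat.card_prod, Nat.card_fun, h1, h2]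
  simp

lemma N9_G : Nat.card {x : GG // x ^ 9 = 1} = 43046721 := by
  have h1 : Nat.card {a : ZMod 27 // 9 • a = 0} = 9 := by
    rw [Nat.subtype_card (Finset.univ.filter (fun a : ZMod 27 => 9 • a = 0)) (by simp)]; decide
  have h2 : Nat.card {a : ZMod 9 // 9 • a = 0} = 9 := by
    rw [Nat.subtype_card (Finset.univ.filter (fun a : ZMod 9 => 9 • a = 0)) (by simp)]; decide
  rw [Nat.card_congr (eqG 9), Nat.card_prod, Nat.card_fun, h1, h2]
  simp

lemma exp_G (x : GG) : x ^ 27 = 1 := by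
  apply Multiplicative.toAdd.injective
  change (27 : ℕ) • x.toAdd = 0
  ext i
  · have : ∀ a : ZMod 27, (27 : ℕ) • a = 0 := by decide
    exact this _
  · have : ∀ a : ZMod 9, (27 : ℕ) • a = 0 := by decide
    exact this _

lemma card_G : Nat.card GG = 3 ^ 17 := by
  have h : Nat.card GG = Nat.card (ZMod 27 × (Fin 7 → ZMod 9)) := rfl
  rw [h, Nat.card_prod, Nat.card_fun, Nat.card_zmod, Nat.card_zmod]
  simp

/-! ### The group `H` -/

lemma card_H : Nat.card HH = 3 ^ 17 := by
  have h : Nat.card (Multiplicative (ZMod 3 × ZMod 3)) = Nat.card (ZMod 3 × ZMod 3) := rfl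
  rw [Nat.card_prod, card_H0, h, Nat.card_prod, Nat.card_zmod]
  norm_num

def eqHH (n : ℕ) (hn : ∀ c : Multiplicative (ZMod 3 × ZMod 3), c ^ n = 1) :
    {x : HH // x ^ n = 1} ≃ {x : H0 // x ^ n = 1} × Multiplicative (ZMod 3 × ZMod 3) where
  toFun x := (⟨x.1.1, congrArg Prod.fst x.2⟩, x.1.2)
  invFun y := ⟨(y.1.1, y.2), Prod.ext y.1.2 (hn _)⟩
  left_inv _ := rfl
  right_inv _ := rfl

lemma cube33 : ∀ c : Multiplicative (ZMod 3 × ZMod 3), c ^ 3 = 1 := by
  intro c
  apply Multiplicative.toAdd.injective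
  change (3 : ℕ) • c.toAdd = 0
  have : ∀ a : ZMod 3, (3 : ℕ) • a = 0 := by decide
  ext
  · exact this _
  · exact this _

lemma card33 : Nat.card (Multiplicative (ZMod 3 × ZMod 3)) = 9 := by
  have h : Nat.card (Multiplicative (ZMod 3 × ZMod 3)) = Nat.card (ZMod 3 × ZMod 3) := rfl
  rw [h, Nat.card_prod, Nat.card_zmod]

lemma N3_H : Nat.card {x : HH // x ^ 3 = 1} = 28704375 := by
  rw [Nat.card_congr (eqHH 3 cube33), Nat.card_prod, N3_H0, card33]

lemma N9_H : Nat.card {x : HH // x ^ 9 = 1} = 33480783 := by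
  rw [Nat.card_congr (eqHH 9 (fun c => by
    rw [show 9 = 3 * 3 from rfl, pow_mul, cube33 c, one_pow])), Nat.card_prod, N9_H0, card33]

lemma exp_H (x : HH) : x ^ 27 = 1 := by
  apply Prod.ext
  · exact exp_H0 _
  · change x.2 ^ 27 = 1
    rw [show 27 = 3 * 9 from rfl, pow_mul, cube33, one_pow]

/-- There are groups `G` and `H` of the same odd order `3 ^ 17`, with `G` an abelian group (hence an
LCM-group), both of exponent `27`, with `psi G = psi H`, but with different order sequences. -/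
theorem result : ∃ (G H : Type) (_ : Group G) (_ : Group H) (_ : Fintype G) (_ : Fintype H),
    Fintype.card G = 3 ^ 17 ∧ Fintype.card H = 3 ^ 17 ∧ (∀ x y : G, x * y = y * x) ∧
    IsLCMGroup G ∧ Monoid.exponent G = 27 ∧ Monoid.exponent H = 27 ∧
    psi G = psi H ∧ os G ≠ os H := by
  have fH0 : Finite H0 := Finite.of_equiv _ eqH.symm
  have fG : Finite GG := by unfold GG; infer_instance
  have fH : Finite HH := by unfold HH; infer_instance
  refine ⟨GG, HH, inferInstance, inferInstance, Fintype.ofFinite _, Fintype.ofFinite _,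
    ?_, ?_, ?_, ?_, ?_, ?_, ?_, ?_⟩
  · exact card_val GG _ (Fintype.ofFinite _) card_G
  · exact card_val HH _ (Fintype.ofFinite _) card_H
  · exact fun x y => mul_comm x y
  · intro x y n
    exact (Commute.all (x ^ n) y).orderOf_mul_dvd_lcm
  · refine exponent_eq GG exp_G (Multiplicative.ofAdd (1, 0)) ?_
    intro h
    have h1 : (9 : ℕ) • (1 : ZMod 27) = 0 := congrArg (fun z : GG => z.toAdd.1) h
    revert h1
    decide
  · refine exponent_eq HH exp_H (eqH.symm (⟨1, 0, 0⟩, ((0, 0), (0, 0))), 1) ?_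
    intro h
    have h1 : (eqH.symm (⟨1, 0, 0⟩, ((0, 0), (0, 0)))) ^ 9 = 1 := congrArg Prod.fst h
    rw [pow_iff, Equiv.apply_symm_apply, cond9] at h1
    revert h1
    decide
  · have h1 := @psi_val GG _ (Fintype.ofFinite _) exp_G _ _ _ N3_G N9_G card_G
    have h2 := @psi_val HH _ (Fintype.ofFinite _) exp_H _ _ _ N3_H N9_H card_H
    omega
  · intro h
    have := @card_of_os GG HH _ _ (Fintype.ofFinite _) (Fintype.ofFinite _) h
    rw [N3_G, N3_H] at this
    omega

end Pool.Agent.Results.MP_c3eb23_al.OddCounterexample
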